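import Pool.Agent.H67.Chiral

namespace Pool.Agent.Results.MP_5bb224_al.Inter

open Matrix Pool.Agent.H67.Chiral

/-- the matrix of the first generator -/
def m1 {F : Type} [Field F] (w : F) : Matrix (Fin 2) (Fin 2) F :=
  (1 / 2 : F) • !![w, w + 2; w - 2, w]

/-- the matrix of the second generator -/
def m2 {F : Type} [Field F] (w : F) : Matrix (Fin 2) (Fin 2) F :=
  (1 / 2 : F) • !![2 + w, w; -w, 2 - w]

/-- the matrix of the third generator, `r` a square root of Omega -/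
def m3 {F : Type} [Field F] (w1 w2 r : F) : Matrix (Fin 2) (Fin 2) F :=
  !![w2 / (2 * w1) * (w1 - 2), r / (2 * w1); r / (2 * w1), w2 / (2 * w1) * (w1 + 2)]

/-- image in the projective special linear group -/
def bar {F : Type} [Field F] (s : SpecialLinearGroup (Fin 2) F) :
    ProjectiveSpecialLinearGroup (Fin 2) F := QuotientGroup.mk s

theorem result (p e₁ e₂ : ℕ) (hp : p.Prime) (hodd : Odd p) (h₁ : 1 < e₁) (h₂ : 1 < e₂)
    (o₁ : Odd e₁) (o₂ : Odd e₂) (hco : Nat.Coprime e₁ e₂)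
    (F : Type) [Field F] [Fintype F] (hF : Fintype.card F = p ^ (e₁ * e₂)) (j₁ j₂ r : F)
    (hj₁ : IsPrimitiveRoot j₁ (p ^ e₁ - 1)) (hj₂ : IsPrimitiveRoot j₂ (p ^ e₂ - 1))
    (hr : r ^ 2 = (j₁ + j₁⁻¹) ^ 2 * (j₂ + j₂⁻¹) ^ 2 - 4 * ((j₁ + j₁⁻¹) ^ 2 + (j₂ + j₂⁻¹) ^ 2))
    (σ₁ σ₂ σ₃ : SpecialLinearGroup (Fin 2) F) (hσ₁ : σ₁.1 = m1 (j₁ + j₁⁻¹))
    (hσ₂ : σ₂.1 = m2 (j₁ + j₁⁻¹)) (hσ₃ : σ₃.1 = m3 (j₁ + j₁⁻¹) (j₂ + j₂⁻¹) r) :
    Subgroup.closure {bar σ₁, bar σ₂} ⊓ Subgroup.closure {bar σ₂, bar σ₃}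
      = Subgroup.zpowers (bar σ₂) := by
  haveI : Fact p.Prime := ⟨hp⟩
  haveI : CharP F p := charP_of_card_eq_prime_pow hF
  obtain ⟨a1, a2⟩ := omega_facts p e₁ e₂ h₁ o₁ hco j₁ hj₁
  obtain ⟨b1, b2⟩ := omega_facts p e₂ e₁ h₂ o₂ hco.symm j₂ hj₂
  generalize j₁ + j₁⁻¹ = w1 at *
  generalize j₂ + j₂⁻¹ = w2 at *
  set ψ := iterateFrobenius F p e₁ with hψ
  set φ := iterateFrobenius F p e₂ with hφ
  have hc : ∀ z, ψ (φ z) = φ (ψ z) := by
    intro z
    rw [hψ, hφ, iterateFrobenius_def, iterateFrobenius_def, iterateFrobenius_def,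
      iterateFrobenius_def, ← pow_mul, ← pow_mul, mul_comm]
  have z1 : w1 ≠ 0 := by rintro rfl; simp at a2
  have z2 : w2 ≠ 0 := by rintro rfl; simp at b2
  have h2 : (2 : F) ≠ 0 := by
    intro h
    have := (CharP.cast_eq_zero_iff F p 2).1 (by exact_mod_cast h)
    have h3 := (Nat.prime_dvd_prime_iff_eq hp Nat.prime_two).1 this
    rw [h3] at hodd
    exact absurd hodd (by decide)
  refine le_antisymm ?_ (by
    rw [Subgroup.zpowers_le]
    exact ⟨Subgroup.subset_closure (by simp), Subgroup.subset_closure (by simp)⟩)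
  rintro y ⟨hy1, hy2⟩
  let π : SpecialLinearGroup (Fin 2) F →* ProjectiveSpecialLinearGroup (Fin 2) F :=
    QuotientGroup.mk' _
  have hmap : ∀ s t, Subgroup.closure {bar s, bar t} = (Subgroup.closure {s, t}).map π := by
    intro s t
    rw [MonoidHom.map_closure, Set.image_pair]; rfl
  rw [hmap] at hy1 hy2
  obtain ⟨X1, hX1, e1⟩ := hy1
  obtain ⟨X, hX, rfl⟩ := hy2
  have q2 : ψ 2 = 2 := map_ofNat ψ 2
  have r1 := R_closure ψ σ₁ σ₂
    (by intro i j; rw [hσ₁]; fin_cases i <;> fin_cases j <;> simp [m1, a1, q2])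
    (by intro i j; rw [hσ₂]; fin_cases i <;> fin_cases j <;> simp [m2, a1, q2]) X1 hX1
  have hcen : ∀ A B : SpecialLinearGroup (Fin 2) F, π A = π B ↔
      ∃ t : F, t ^ 2 = 1 ∧ B.1 = t • A.1 := by
    intro A B
    rw [show π A = π B ↔ A⁻¹ * B ∈ Subgroup.center _ from QuotientGroup.eq,
      Matrix.SpecialLinearGroup.mem_center_iff]
    have e : B.1 = A.1 * (A⁻¹ * B).1 := by
      rw [← Matrix.SpecialLinearGroup.coe_mul, mul_inv_cancel_left]
    constructor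
    · rintro ⟨t, ht, h⟩
      refine ⟨t, by simpa using ht, ?_⟩
      rw [e, ← h, Matrix.scalar_apply, ← Matrix.smul_one_eq_diagonal, mul_smul_comm, mul_one]
    · rintro ⟨t, ht, h⟩
      refine ⟨t, by simpa using ht, ?_⟩
      rw [Matrix.SpecialLinearGroup.coe_mul, h, mul_smul_comm, ← Matrix.SpecialLinearGroup.coe_mul,
        inv_mul_cancel, Matrix.scalar_apply, ← Matrix.smul_one_eq_diagonal]
      rfl
  have r2 : ∀ i j, ψ (X.1 i j) = X.1 i j := by
    obtain ⟨t, ht, h⟩ := (hcen _ _).1 e1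
    intro i j
    rw [h, Matrix.smul_apply, smul_eq_mul, map_mul, r1]
    rcases sq_eq_one_iff.1 ht with rfl | rfl <;> simp
  have hdet := σ₃.2
  rw [hσ₃, m3, Matrix.det_fin_two_of] at hdet
  obtain ⟨a, b, c, d, ha, hb, hcc, hd, hXe⟩ := Q_closure φ w2 b1 σ₂ σ₃
    (by
      rw [hσ₂]; ext i j
      fin_cases i <;> fin_cases j <;> simp [m2, Matrix.mul_apply, Fin.sum_univ_two] <;>
        field_simp <;> ring)
    (by
      rw [hσ₃]; ext i j
      fin_cases i <;> fin_cases j <;> simp [m3, Matrix.mul_apply, Fin.sum_univ_two] <;>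
        field_simp <;> first | ring1 | linear_combination hr)
    (by
      rw [hσ₂, hσ₃]; ext i j
      fin_cases i <;> fin_cases j <;> simp [m2, m3, Matrix.mul_apply, Fin.sum_univ_two] <;>
        field_simp <;> ring) X hX
  rw [hσ₂, hσ₃] at hXe
  have x00 := congrFun (congrFun hXe 0) 0
  have x01 := congrFun (congrFun hXe 0) 1
  have x10 := congrFun (congrFun hXe 1) 0
  have x11 := congrFun (congrFun hXe 1) 1
  simp [m2, m3, Matrix.mul_apply, Fin.sum_univ_two] at x00 x01 x10 x11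
  obtain ⟨c0, d0⟩ := core2 φ ψ hc h2 w1 w2 ((w1 * w2 + r) / 2) a b c d z1 z2 a1 b1 a2 b2
    (by field_simp; linear_combination hr) ha hb hcc hd (X.1 0 0 + X.1 1 1)
    (w1 / 2 * (X.1 1 1 - X.1 0 0 + X.1 0 1 - X.1 1 0)) (X.1 0 1 - X.1 1 0)
    ((w1 * X.1 0 0 + (w1 - 2) * X.1 0 1 + (w1 + 2) * X.1 1 0 + w1 * X.1 1 1) / 2)
    (by simp [r2]) (by simp [r2, a1, q2]) (by simp [r2]) (by simp [r2, a1, q2])
    (by rw [x00, x11]; field_simp; ring) (by rw [x00, x11, x01, x10]; field_simp; ring)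
    (by rw [x01, x10]; field_simp; ring)
    (by rw [x00, x11, x01, x10]; field_simp; ring)
  subst c0 d0
  have hdX := X.2
  rw [Matrix.det_fin_two, x00, x11, x01, x10] at hdX
  have ht : (a + b) ^ 2 = 1 := by
    rw [← hdX]
    simp only [zero_mul, add_zero]
    field_simp
    ring
  have hbψ : ψ b = b := by
    have := r2 0 1
    rw [x01] at this
    simpa [a1, q2, z1, h2] using this
  have hab : ψ (a + b) = a + b ∧ φ (a + b) = a + b := by
    rcases sq_eq_one_iff.1 ht with h | h <;> rw [h] <;> simp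
  have hb' := fix_gcd p e₁ e₂ hco (b * (a + b)) (by rw [map_mul, hab.1, hbψ])
    (by rw [map_mul, hab.2, hb])
  obtain ⟨n, hn⟩ := (mem_bot_iff_intCast p F).1 ((Subfield.mem_bot_iff_pow_eq_self F p).2 hb')
  have hpow : ∀ n : ℤ, (σ₂ ^ n).1 = 1 + (n : F) • (σ₂.1 - 1) := by
    have hN : (σ₂.1 - 1) * (σ₂.1 - 1) = 0 := by
      rw [hσ₂]; ext i j
      fin_cases i <;> fin_cases j <;> simp [m2, Matrix.mul_apply, Fin.sum_univ_two] <;>
        field_simp <;> ring
    have hs : ∀ x : F, (1 + x • (σ₂.1 - 1)) * σ₂.1 = 1 + (x + 1) • (σ₂.1 - 1) := by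
      intro x
      have : σ₂.1 = 1 + (σ₂.1 - 1) := by abel
      nth_rewrite 2 [this]
      rw [mul_add, mul_one, add_mul, one_mul, smul_mul_assoc, hN]
      module
    intro n
    induction n using Int.induction_on with
    | zero => simp
    | succ n ih =>
      rw [_root_.zpow_add_one, Matrix.SpecialLinearGroup.coe_mul, ih, hs]
      push_cast; rfl
    | pred n ih =>
      have h5 := hs (((-(n : ℤ) - 1 : ℤ) : F))
      have h6 : ((-(n : ℤ) - 1 : ℤ) : F) + 1 = ((-(n : ℤ) : ℤ) : F) := by push_cast; ring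
      rw [h6, ← ih] at h5
      rw [_root_.zpow_sub_one, Matrix.SpecialLinearGroup.coe_mul, ← h5, mul_assoc,
        ← Matrix.SpecialLinearGroup.coe_mul, mul_inv_cancel]
      simp
  refine ⟨n, ?_⟩
  show π σ₂ ^ n = π X
  rw [← map_zpow, hcen]
  refine ⟨a + b, ht, ?_⟩
  rw [hpow, hn, hXe, hσ₂]
  have h7 : (a + b) * (b * (a + b)) = b := by linear_combination b * ht
  rw [smul_add, smul_smul, h7]
  module

end Pool.Agent.Results.MP_5bb224_al.Inter
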